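import Pool.Agent.N453.ZS.Quo

/-!
An extension of an amenable group by an infinite cyclic group is amenable (Foelner condition).
-/

set_option autoImplicit false

namespace Pool.Agent.N453.ZS

open scoped Pointwise symmDiff
open Pool.Agent.H496R3.ZS (IsAmenable)

lemma amenable_bot {G : Type} [Group G] : IsAmenable (⊥ : Subgroup G) := by
  classical
  intro S ε hε
  refine ⟨{1}, Finset.singleton_nonempty _, fun s _ => ?_⟩
  have hs : s = 1 := Subsingleton.elim _ _
  rw [hs, one_smul, symmDiff_self, Set.bot_eq_empty, Set.ncard_empty, Nat.cast_zero]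
  exact mul_nonneg hε.le (Nat.cast_nonneg _)

/-- the abstract form: `K` is in bijection with `ℤ × D`, and left multiplication by `s` is
`(i, y) ↦ (a + i, θ i * y)` -/
lemma amenable_of_coord {K D : Type} [Group K] [Group D] (hD : IsAmenable D) (e : ℤ × D → K)
    (he : Function.Injective e)
    (hs : ∀ s : K, ∃ (a : ℤ) (θ : ℤ → D), ∀ i y, s * e (i, y) = e (a + i, θ i * y)) :
    IsAmenable K := by
  classical
  intro S ε hε
  choose a θ hθ using hs
  obtain ⟨A, hA⟩ : ∃ A : ℕ, ∀ s ∈ S, (a s).natAbs ≤ A :=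
    ⟨S.sup fun s => (a s).natAbs, fun s hs => Finset.le_sup (f := fun s => (a s).natAbs) hs⟩
  obtain ⟨n, hn⟩ := exists_nat_gt (4 * A / ε)
  have hn' : 4 * (A : ℝ) ≤ ε * n := by
    rw [div_lt_iff₀ hε] at hn
    linarith
  have hn0 : 0 < n + 1 := Nat.succ_pos n
  obtain ⟨F, hF, hFS⟩ := hD ((S ×ˢ Finset.Ico (0 : ℤ) (n + 1)).image fun p => θ p.1 p.2) (ε / 2)
    (by positivity)
  set E : Finset K := (Finset.Ico (0 : ℤ) (n + 1) ×ˢ F).image e with hE
  have hmem : ∀ (i : ℤ) (y : D), e (i, y) ∈ E ↔ (0 ≤ i ∧ i < n + 1) ∧ y ∈ F := by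
    intro i y
    rw [hE, Finset.mem_image]
    constructor
    · rintro ⟨⟨j, z⟩, hj, hjz⟩
      have := he hjz
      rw [Finset.mem_product, Finset.mem_Ico] at hj
      obtain ⟨rfl, rfl⟩ := Prod.mk.inj this
      exact hj
    · intro h
      exact ⟨(i, y), Finset.mem_product.2 ⟨Finset.mem_Ico.2 h.1, h.2⟩, rfl⟩
  have hcard : E.card = (n + 1) * F.card := by
    rw [hE, Finset.card_image_of_injective _ he, Finset.card_product, Int.card_Ico]
    congr 1
  have hFpos : 0 < F.card := hF.card_pos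
  refine ⟨E, Finset.card_pos.1 (by rw [hcard]; positivity), fun s hsS => ?_⟩
  set D' : Finset ℤ := Finset.Ico (min 0 (a s)) (max 0 (a s)) ∪
    Finset.Ico (min ((n : ℤ) + 1) (n + 1 + a s)) (max ((n : ℤ) + 1) (n + 1 + a s)) with hD'
  have hDc : D'.card ≤ 2 * A := by
    refine (Finset.card_union_le _ _).trans ?_
    rw [Int.card_Ico, Int.card_Ico]
    have := hA s hsS
    omega
  set U : Finset K := ((Finset.Ico (0 : ℤ) (n + 1)).biUnion fun i =>
    (((θ s i) • F) ∆ F).image fun y => e (a s + i, y)) ∪ (D' ×ˢ F).image e with hU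
  have hsub : ((s • (E : Set K)) ∆ (E : Set K)) ⊆ (U : Set K) := by
    rintro x (⟨hx1, hx2⟩ | ⟨hx1, hx2⟩)
    · obtain ⟨w, hw, rfl⟩ := hx1
      obtain ⟨⟨i, y⟩, hi, rfl⟩ := Finset.mem_image.1 (Finset.mem_coe.1 hw)
      rw [Finset.mem_product, Finset.mem_Ico] at hi
      change s * e (i, y) ∉ _ at hx2
      change s * e (i, y) ∈ _
      rw [hθ] at hx2 ⊢
      rw [Finset.mem_coe, hmem] at hx2
      rw [Finset.mem_coe, hU, Finset.mem_union]
      by_cases hy : θ s i * y ∈ F
      · right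
        refine Finset.mem_image.2 ⟨(a s + i, θ s i * y), Finset.mem_product.2 ⟨?_, hy⟩, rfl⟩
        have h3 : ¬ (0 ≤ a s + i ∧ a s + i < n + 1) := fun h => hx2 ⟨h, hy⟩
        have h4 := hi.1
        change 0 ≤ i ∧ i < n + 1 at h4
        rw [hD', Finset.mem_union, Finset.mem_Ico, Finset.mem_Ico]
        change (_ ≤ a s + i ∧ a s + i < _) ∨ (_ ≤ a s + i ∧ a s + i < _)
        omega
      · left
        refine Finset.mem_biUnion.2 ⟨i, Finset.mem_Ico.2 hi.1, ?_⟩
        refine Finset.mem_image.2 ⟨θ s i * y, ?_, rfl⟩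
        rw [Finset.mem_symmDiff]
        exact Or.inl ⟨Finset.smul_mem_smul_finset hi.2, hy⟩
    · obtain ⟨⟨j, y⟩, hj, rfl⟩ := Finset.mem_image.1 (Finset.mem_coe.1 hx1)
      rw [Finset.mem_product, Finset.mem_Ico] at hj
      have hj1 := hj.1
      have hj2 := hj.2
      change 0 ≤ j ∧ j < n + 1 at hj1
      change y ∈ F at hj2
      rw [Finset.mem_coe, hU, Finset.mem_union]
      by_cases h3 : 0 ≤ j - a s ∧ j - a s < n + 1
      · left
        refine Finset.mem_biUnion.2 ⟨j - a s, Finset.mem_Ico.2 h3, ?_⟩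
        refine Finset.mem_image.2 ⟨y, ?_, by rw [add_sub_cancel]⟩
        rw [Finset.mem_symmDiff]
        refine Or.inr ⟨hj2, fun hcon => hx2 ?_⟩
        obtain ⟨z, hz, hzy⟩ := Finset.mem_smul_finset.1 hcon
        refine ⟨e (j - a s, z), Finset.mem_coe.2 ((hmem _ _).2 ⟨h3, hz⟩), ?_⟩
        change s * e (j - a s, z) = _
        rw [hθ, add_sub_cancel]
        exact congrArg (fun t => e (j, t)) hzy
      · right
        refine Finset.mem_image.2 ⟨(j, y), Finset.mem_product.2 ⟨?_, hj2⟩, rfl⟩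
        rw [hD', Finset.mem_union, Finset.mem_Ico, Finset.mem_Ico]
        change (_ ≤ j ∧ j < _) ∨ (_ ≤ j ∧ j < _)
        omega
  have hUc : (U.card : ℝ) ≤ (n + 1) * (ε / 2 * F.card) + 2 * A * F.card := by
    have h1 : U.card ≤ (∑ i ∈ Finset.Ico (0 : ℤ) (n + 1), (((θ s i) • F) ∆ F).card) +
        D'.card * F.card := by
      refine (Finset.card_union_le _ _).trans (add_le_add ?_ ?_)
      · refine Finset.card_biUnion_le.trans (Finset.sum_le_sum fun i _ => Finset.card_image_le)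
      · exact Finset.card_image_le.trans (Finset.card_product _ _).le
    have h2 : ∀ i ∈ Finset.Ico (0 : ℤ) (n + 1),
        ((((θ s i) • F) ∆ F).card : ℝ) ≤ ε / 2 * F.card := by
      intro i hi
      have h3 := hFS (θ s i) (Finset.mem_image.2
        ⟨(s, i), Finset.mem_product.2 ⟨hsS, hi⟩, rfl⟩)
      rw [← Finset.coe_smul_finset, ← Finset.coe_symmDiff, Set.ncard_coe_finset] at h3
      exact h3
    calc (U.card : ℝ) ≤ (∑ i ∈ Finset.Ico (0 : ℤ) (n + 1), ((((θ s i) • F) ∆ F).card : ℝ)) +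
        D'.card * F.card := by exact_mod_cast h1
      _ ≤ (n + 1) * (ε / 2 * F.card) + 2 * A * F.card := by
        refine add_le_add ?_ ?_
        · refine (Finset.sum_le_sum h2).trans ?_
          rw [Finset.sum_const, Int.card_Ico, nsmul_eq_mul]
          have : ((n : ℤ) + 1 - 0).toNat = n + 1 := by omega
          rw [this]
          push_cast
          exact le_rfl
        · refine mul_le_mul_of_nonneg_right ?_ (Nat.cast_nonneg _)
          exact_mod_cast hDc
  have h5 : ((s • (E : Set K)) ∆ (E : Set K)).ncard ≤ U.card := by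
    refine (Set.ncard_le_ncard hsub (Finset.finite_toSet _)).trans ?_
    rw [Set.ncard_coe_finset]
  calc (((s • (E : Set K)) ∆ (E : Set K)).ncard : ℝ)
      ≤ U.card := by exact_mod_cast h5
    _ ≤ (n + 1) * (ε / 2 * F.card) + 2 * A * F.card := hUc
    _ ≤ ε * E.card := by
      rw [hcard]
      push_cast
      have h6 : (0 : ℝ) ≤ F.card := Nat.cast_nonneg _
      nlinarith [mul_nonneg hε.le h6]

theorem amenable_sup {G : Type} [Group G] {N : Subgroup G} (hN : IsAmenable N) {c : G}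
    (hc : c ∈ Subgroup.normalizer N) (hi : ∀ m : ℤ, c ^ m ∈ N → m = 0) :
    IsAmenable (N ⊔ Subgroup.zpowers c : Subgroup G) := by
  have hz : ∀ i : ℤ, c ^ i ∈ N ⊔ Subgroup.zpowers c := fun i =>
    Subgroup.mem_sup_right (zpow_mem (Subgroup.mem_zpowers c) i)
  refine amenable_of_coord hN
    (fun p => (⟨c ^ p.1 * p.2, mul_mem (hz _) (Subgroup.mem_sup_left p.2.2)⟩ :
      (N ⊔ Subgroup.zpowers c : Subgroup G))) ?_ ?_
  · rintro ⟨i, y⟩ ⟨j, z⟩ h
    have h1 : c ^ i * (y : G) = c ^ j * z := congrArg Subtype.val h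
    have h2 : c ^ (-j + i) = z * (y : G)⁻¹ := by
      rw [zpow_add, eq_mul_inv_iff_mul_eq, mul_assoc, h1, zpow_neg, inv_mul_cancel_left]
    have h3 := hi (-j + i) (by rw [h2]; exact mul_mem z.2 (inv_mem y.2))
    have h4 : i = j := by omega
    subst h4
    rw [Prod.mk.injEq]
    exact ⟨rfl, Subtype.ext (mul_left_cancel h1)⟩
  · rintro ⟨s, hs⟩
    obtain ⟨m, hm⟩ := (mem_sup_zpowers hc).1 hs
    refine ⟨-m, fun i => ⟨c ^ (-i) * (c ^ m * s) * (c ^ (-i))⁻¹,
      (Subgroup.mem_normalizer_iff.1 (zpow_mem hc (-i)) _).1 hm⟩, fun i y => ?_⟩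
    apply Subtype.ext
    change s * (c ^ i * (y : G)) = c ^ (-m + i) * (c ^ (-i) * (c ^ m * s) * (c ^ (-i))⁻¹ * y)
    rw [zpow_add, zpow_neg, zpow_neg]
    group

end Pool.Agent.N453.ZS
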