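import Pool.Agent.N453.ZS.Main

/-!
Descent along a central series of a torsion-free nilpotent subgroup which fixes a class in the
least degree with non-zero cohomology.
-/

set_option autoImplicit false

namespace Pool.Agent.N453.ZS

open Pool.Agent.H496R3.ZS (IsAmenable)
open Pool.Agent.H919R4.ZS (FinRes toRed)
open Pool.Agent.H919R4.AS (permZ ringZ cobdZ coboundariesZ cohomologyZ)

variable {G : Type} [Group G]

/-- the subgroup generated by `N` and `c 0, …, c (i - 1)` -/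
def seg (N : Subgroup G) (c : ℕ → G) (i : ℕ) : Subgroup G :=
  N ⊔ Subgroup.closure {g | ∃ j < i, g = c j}

lemma seg_zero (N : Subgroup G) (c : ℕ → G) : seg N c 0 = N := by
  have : {g | ∃ j < 0, g = c j} = (∅ : Set G) := by
    ext g; simp
  rw [seg, this, Subgroup.closure_empty, sup_bot_eq]

lemma seg_succ (N : Subgroup G) (c : ℕ → G) (i : ℕ) :
    seg (N ⊔ Subgroup.zpowers (c 0)) (fun j => c (j + 1)) i = seg N c (i + 1) := by
  have h : {g | ∃ j < i + 1, g = c j} = {c 0} ∪ {g | ∃ j < i, g = c (j + 1)} := by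
    ext g
    constructor
    · rintro ⟨j, hj, rfl⟩
      cases j with
      | zero => exact Or.inl rfl
      | succ j => exact Or.inr ⟨j, by omega, rfl⟩
    · rintro (rfl | ⟨j, hj, rfl⟩)
      · exact ⟨0, by omega, rfl⟩
      · exact ⟨j + 1, by omega, rfl⟩
  rw [seg, seg, h, Subgroup.closure_union, Subgroup.zpowers_eq_closure, sup_assoc]

/-- `c 0, …, c (h - 1)` is a central series with infinite cyclic factors modulo `N` -/
structure Ser (N : Subgroup G) (c : ℕ → G) (h : ℕ) : Prop where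
  norm : ∀ j < h, c j ∈ Subgroup.normalizer N
  inf : ∀ i < h, ∀ m : ℤ, c i ^ m ∈ seg N c i → m = 0
  comm : ∀ i j, i < j → j < h → c i * c j * (c i)⁻¹ * (c j)⁻¹ ∈ seg N c i

lemma comm_iff {N : Subgroup G} {a b : G} (ha : a ∈ Subgroup.normalizer N)
    (hb : b ∈ Subgroup.normalizer N) (h : (a * b * a⁻¹ * b⁻¹) ∈ N) : (b * a)⁻¹ * (a * b) ∈ N := by
  have h1 := (Subgroup.mem_normalizer_iff.1 (inv_mem (mul_mem hb ha)) _).1 h
  have e : (b * a)⁻¹ * (a * b * a⁻¹ * b⁻¹) * (b * a)⁻¹⁻¹ = (b * a)⁻¹ * (a * b) := by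
    group
  rwa [e] at h1

lemma Ser.next {N : Subgroup G} {c : ℕ → G} {h : ℕ} (H : Ser N c (h + 1)) :
    Ser (N ⊔ Subgroup.zpowers (c 0)) (fun j => c (j + 1)) h where
  norm j hj := by
    have h0 : (c 0 * c (j + 1) * (c 0)⁻¹ * (c (j + 1))⁻¹) ∈ N := by
      have := H.comm 0 (j + 1) (by omega) (by omega)
      rwa [seg_zero] at this
    have hn := H.norm (j + 1) (by omega)
    have hn0 := H.norm 0 (by omega)
    have key : ∀ b : G, b ∈ Subgroup.normalizer N → b * c 0 * b⁻¹ ∈ N ⊔ Subgroup.zpowers (c 0) →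
        ∀ g ∈ N ⊔ Subgroup.zpowers (c 0), b * g * b⁻¹ ∈ N ⊔ Subgroup.zpowers (c 0) := by
      intro b hb hb0 g hg
      have h3 : N ⊔ Subgroup.zpowers (c 0) ≤
          (N ⊔ Subgroup.zpowers (c 0)).comap (MulAut.conj b).toMonoidHom := by
        refine sup_le ?_ ?_
        · intro x hx
          exact Subgroup.mem_sup_left ((Subgroup.mem_normalizer_iff.1 hb x).1 hx)
        · rw [Subgroup.zpowers_le]
          exact hb0
      exact h3 hg
    have e1 : c (j + 1) * c 0 * (c (j + 1))⁻¹ ∈ N ⊔ Subgroup.zpowers (c 0) := by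
      have e : c (j + 1) * c 0 * (c (j + 1))⁻¹ = (c 0 * c (j + 1) * (c 0)⁻¹ * (c (j + 1))⁻¹)⁻¹ * c 0 := by
        group
      rw [e]
      exact mul_mem (Subgroup.mem_sup_left (inv_mem h0))
        (Subgroup.mem_sup_right (Subgroup.mem_zpowers _))
    have e2 : (c (j + 1))⁻¹ * c 0 * (c (j + 1))⁻¹⁻¹ ∈ N ⊔ Subgroup.zpowers (c 0) := by
      have h4 : (c (j + 1))⁻¹ * (c 0 * c (j + 1) * (c 0)⁻¹ * (c (j + 1))⁻¹) * (c (j + 1))⁻¹⁻¹ ∈ N :=
        (Subgroup.mem_normalizer_iff.1 (inv_mem hn) _).1 h0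
      have e : (c (j + 1))⁻¹ * c 0 * (c (j + 1))⁻¹⁻¹ =
          ((c (j + 1))⁻¹ * (c 0 * c (j + 1) * (c 0)⁻¹ * (c (j + 1))⁻¹) * (c (j + 1))⁻¹⁻¹) * c 0 := by
        group
      rw [e]
      exact mul_mem (Subgroup.mem_sup_left h4) (Subgroup.mem_sup_right (Subgroup.mem_zpowers _))
    rw [Subgroup.mem_normalizer_iff]
    intro g
    refine ⟨key _ hn e1 g, fun hg => ?_⟩
    have h5 := key _ (inv_mem hn) e2 _ hg
    have e : (c (j + 1))⁻¹ * (c (j + 1) * g * (c (j + 1))⁻¹) * (c (j + 1))⁻¹⁻¹ = g := by group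
    rwa [e] at h5
  inf i hi m hm := H.inf (i + 1) (by omega) m (by rwa [seg_succ] at hm)
  comm i j hij hj := by
    rw [seg_succ]
    exact H.comm (i + 1) (j + 1) (by omega) (by omega)

/-- a class of degree `m` which is fixed by `c 0, …, c (h - 1)` -/
def Fx (X : FinRes G) (N : Subgroup G) (c : ℕ → G) (h m : ℕ)
    (hn : ∀ j < h, c j ∈ Subgroup.normalizer N) : Prop :=
  ∃ x : Fin (X.n m) → (G ⧸ N →₀ ℤ), cobdZ X (G ⧸ N) m x = 0 ∧
    x ∉ coboundariesZ X (G ⧸ N) m ∧
    ∀ j (hj : j < h), psh (rmul N (c j) (hn j hj)) x - x ∈ coboundariesZ X (G ⧸ N) m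

theorem fx_step (X : FinRes G) {N : Subgroup G} {c : ℕ → G} {h m : ℕ} (H : Ser N c (h + 1))
    (hl : Low X (G ⧸ N) (m + 1)) (hx : Fx X N c (h + 1) (m + 1) H.norm) :
    Low X (G ⧸ (N ⊔ Subgroup.zpowers (c 0))) m ∧
    Fx X (N ⊔ Subgroup.zpowers (c 0)) (fun j => c (j + 1)) h m H.next.norm := by
  have hQ := isQuo N (c 0) (H.norm 0 (by omega)) (by
    intro m hm
    exact H.inf 0 (by omega) m (by rwa [seg_zero]))
  refine ⟨step_low X hQ hl, ?_⟩
  obtain ⟨x, hx0, hx1, hx2⟩ := hx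
  obtain ⟨y, hy⟩ : x - psh (rmul N (c 0) (H.norm 0 (by omega))) x ∈
      coboundariesZ X (G ⧸ N) (m + 1) := by
    have := AddSubgroup.neg_mem _ (hx2 0 (by omega))
    rwa [neg_sub] at this
  refine ⟨psh (qproj le_sup_left) y, step_cocyc X hQ hy.symm, ?_, ?_⟩
  · intro hcon
    apply hx1
    have := step_ne X hQ hy.symm 1 (by rwa [one_smul])
    rwa [one_smul] at this
  · intro j hj
    have h1 := step_fix X hQ hl hy.symm (Q := rmul N (c (j + 1)) (H.norm (j + 1) (by omega)))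
      (Q' := rmul (N ⊔ Subgroup.zpowers (c 0)) (c (j + 1)) (H.next.norm j hj))
      (rmul_smul N _ _) ?_ ?_ 1 ?_
    · rw [one_smul] at h1
      exact h1
    · intro s
      induction s using QuotientGroup.induction_on with
      | H g =>
        rw [rmul_mk, rmul_mk, rmul_mk, rmul_mk, QuotientGroup.eq]
        have h0 : (c 0 * c (j + 1) * (c 0)⁻¹ * (c (j + 1))⁻¹) ∈ N := by
          have := H.comm 0 (j + 1) (by omega) (by omega)
          rwa [seg_zero] at this
        have h2 := inv_mem (comm_iff (H.norm 0 (by omega)) (H.norm (j + 1) (by omega)) h0)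
        have e : (g * c 0 * c (j + 1))⁻¹ * (g * c (j + 1) * c 0) =
            ((c (j + 1) * c 0)⁻¹ * (c 0 * c (j + 1)))⁻¹ := by group
        rw [e]
        exact h2
    · intro s
      induction s using QuotientGroup.induction_on with
      | H g => rfl
    · rw [one_smul]
      exact hx2 (j + 1) (by omega)

theorem fx_chain (X : FinRes G) : ∀ (h : ℕ) (N : Subgroup G) (c : ℕ → G) (m : ℕ)
    (H : Ser N c h), IsAmenable N → Low X (G ⧸ N) (m + h) → Fx X N c h (m + h) H.norm →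
    ∃ D : Subgroup G, IsAmenable D ∧ ∃ x : Fin (X.n m) → (G ⧸ D →₀ ℤ),
      cobdZ X (G ⧸ D) m x = 0 ∧ x ∉ coboundariesZ X (G ⧸ D) m := by
  intro h
  induction h with
  | zero =>
    intro N c m H hN hl hx
    obtain ⟨x, hx0, hx1, -⟩ := hx
    exact ⟨N, hN, x, hx0, hx1⟩
  | succ h ih =>
    intro N c m H hN hl hx
    obtain ⟨h1, h2⟩ := fx_step X (m := m + h) H hl hx
    refine ih (N ⊔ Subgroup.zpowers (c 0)) (fun j => c (j + 1)) m H.next
      (amenable_sup hN (H.norm 0 (by omega)) ?_) h1 h2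
    intro m hm
    exact H.inf 0 (by omega) m (by rwa [seg_zero])

theorem main_class (X : FinRes G) {D : Subgroup G} (hD : IsAmenable D) {k : ℕ} (hk : k ≤ 2)
    (h : ∃ x : Fin (X.n k) → (G ⧸ D →₀ ℤ),
      cobdZ X (G ⧸ D) k x = 0 ∧ x ∉ coboundariesZ X (G ⧸ D) k) :
    ∃ i ≤ 2, Nontrivial (X.homology (toRed G) i) := by
  obtain ⟨x, hx0, hx1⟩ := h
  rcases finite_or_infinite (G ⧸ D) with hf | hf
  · exact finite_case X hD hf
  · refine Pool.Agent.H919R4.AS.main X hD hf ⟨k, hk, ?_⟩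
    refine ⟨⟨((⟨x, hx0⟩ : (cobdZ X (G ⧸ D) k).ker) : cohomologyZ X (G ⧸ D) k), 0, ?_⟩⟩
    intro h3
    rw [QuotientAddGroup.eq_zero_iff] at h3
    exact hx1 h3

/-- Right multiplication by `c` on tuples of elements of the group ring. -/
noncomputable def rt (X : FinRes G) {m : ℕ} (y : Fin (X.n m) → MonoidAlgebra ℤ G) (c : G) :
    Fin (X.n m) → MonoidAlgebra ℤ G := fun j => y j * MonoidAlgebra.single c 1

lemma psh_rt (X : FinRes G) {m : ℕ} (y : Fin (X.n m) → MonoidAlgebra ℤ G) (c : G) :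
    psh (fun g : G => g * c) (cf y) = cf (rt X y c) := by
  funext j
  rw [psh_apply, cf_apply, cf_apply, rt]
  refine MonoidAlgebra.induction_linear (y j) ?_ ?_ ?_
  · simp
  · intro a b ha hb
    rw [add_mul, MonoidAlgebra.coeff_add, MonoidAlgebra.coeff_add, Finsupp.mapDomain_add, ha, hb]
  · intro g r
    rw [MonoidAlgebra.single_mul_single, MonoidAlgebra.coeff_single, MonoidAlgebra.coeff_single,
      Finsupp.mapDomain_single, mul_one]

/-- the transfer to `ℤ[G/1]` -/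
theorem fx_bot (X : FinRes G) {n h : ℕ} (hl : ∀ k < n, Subsingleton (X.cohomology k)) (c : ℕ → G)
    (y : Fin (X.n n) → MonoidAlgebra ℤ G) (hy0 : X.cobd n y = 0) (hy1 : y ∉ X.coboundaries n)
    (hy2 : ∀ j < h, rt X y (c j) - y ∈ X.coboundaries n)
    (hn : ∀ j < h, c j ∈ Subgroup.normalizer ((⊥ : Subgroup G) : Set G)) :
    Low X (G ⧸ (⊥ : Subgroup G)) n ∧ Fx X (⊥ : Subgroup G) c h n hn := by
  let φ : G → G ⧸ (⊥ : Subgroup G) := fun g => (g : G ⧸ (⊥ : Subgroup G))
  have hφ : ∀ (g : G) (s : G), φ (g • s) = g • φ s := fun _ _ => rfl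
  have hinj : Function.Injective φ := by
    intro a b hab
    have h1 := QuotientGroup.eq.1 hab
    rw [Subgroup.mem_bot] at h1
    exact (eq_of_inv_mul_eq_one h1)
  let e : G ≃ G ⧸ (⊥ : Subgroup G) :=
    Equiv.ofBijective φ ⟨hinj, QuotientGroup.mk_surjective⟩
  have he' : ∀ (g : G) (s : G ⧸ (⊥ : Subgroup G)), e.symm (g • s) = g • e.symm s := by
    intro g s
    apply e.injective
    rw [Equiv.apply_symm_apply]
    change _ = φ (g • e.symm s)
    rw [hφ]
    change _ = g • e (e.symm s)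
    rw [Equiv.apply_symm_apply]
  have e1 : ∀ {a : ℕ} (z : Fin a → (G ⧸ (⊥ : Subgroup G) →₀ ℤ)), psh φ (psh e.symm z) = z := by
    intro a z
    rw [psh_psh]
    have : (fun s => φ (e.symm s)) = fun s : G ⧸ (⊥ : Subgroup G) => s := by
      funext s
      exact e.apply_symm_apply s
    rw [this]
    exact psh_id z
  have e2 : ∀ {a : ℕ} (z : Fin a → (G →₀ ℤ)), psh e.symm (psh φ z) = z := by
    intro a z
    rw [psh_psh]
    have : (fun s => e.symm (φ s)) = fun s : G => s := by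
      funext s
      exact e.symm_apply_apply s
    rw [this]
    exact psh_id z
  constructor
  · intro k hk z hz
    rw [← e1 z]
    refine cob_psh X φ hφ (low_of X hl k hk _ ?_)
    rw [cobdZ_psh X e.symm he', hz, map_zero]
  · refine ⟨psh φ (cf y), ?_, ?_, ?_⟩
    · rw [cobdZ_psh X φ hφ, cobdZ_cf, hy0, map_zero, map_zero]
    · intro hcon
      have h1 := cob_psh X e.symm he' hcon
      rw [e2, cob_cf] at h1
      exact hy1 h1
    · intro j hj
      have h1 : psh (rmul (⊥ : Subgroup G) (c j) (hn j hj)) (psh φ (cf y)) =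
          psh φ (cf (rt X y (c j))) := by
        rw [← psh_rt, psh_psh, psh_psh]
        rfl
      rw [h1, ← map_sub, ← map_sub]
      exact cob_psh X φ hφ (cob_cf X |>.2 (hy2 j hj))

end Pool.Agent.N453.ZS
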