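import Pool.Agent.N453.ZS.Def
import Pool.Agent.N453.ZS.Trans
import Pool.Agent.N453.ZS.Amen
import Pool.Agent.N453.ZS.Pow
import Pool.Agent.H919R4.ZS.Final

/-!
Zero in the spectrum for Poincaré duality groups with a polycyclic subgroup of codimension two.
-/

set_option autoImplicit false

namespace Pool.Agent.N453.ZS

open Pool.Agent.H496R3.ZS (IsAmenable)
open Pool.Agent.H919R4.ZS (FinRes toRed eps eps_d eps_single augm augm_single)
open Pool.Agent.H919R4.AS (permZ ringZ cobdZ coboundariesZ cohomologyZ Van H0 van_of_homology Mult)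

variable {G : Type} [Group G]

lemma PolyZ.fg {P : Subgroup G} {h : ℕ} (hP : PolyZ P h) : P.FG := by
  induction hP with
  | bot => exact Subgroup.FG.bot
  | step c _ _ _ ih =>
    refine ih.sup ?_
    rw [Subgroup.zpowers_eq_closure]
    exact ⟨{c}, by simp⟩

lemma PolyZ.sub {P : Subgroup G} {h : ℕ} (hP : PolyZ P h) : ∀ j ≤ h, ∃ P' : Subgroup G, PolyZ P' j := by
  induction hP with
  | bot => intro j hj; exact ⟨⊥, by rw [Nat.le_zero.1 hj]; exact PolyZ.bot⟩
  | @step P h c hP hc hi ih =>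
    intro j hj
    rcases Nat.lt_or_ge j (h + 1) with h1 | h1
    · exact ih j (by omega)
    · have : j = h + 1 := by omega
      subst this
      exact ⟨_, PolyZ.step c hP hc hi⟩

theorem PolyZ.exists_cyc {P : Subgroup G} {h : ℕ} (hP : PolyZ P h) (X : FinRes G) :
    ∀ m : ℕ, Cyc X (G ⧸ (⊥ : Subgroup G)) (m + h) →
      ∃ D : Subgroup G, D ≤ P ∧ D.relIndex P ≠ 0 ∧ IsAmenable D ∧ Cyc X (G ⧸ D) m := by
  induction hP with
  | bot =>
    intro m hm
    exact ⟨⊥, le_rfl, by rw [Subgroup.relIndex_self]; norm_num, amenable_bot, hm⟩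
  | @step P h c hP hc hi ih =>
    intro m hm
    obtain ⟨D, hDP, hf, hA, hD⟩ := ih (m + 1) (by rwa [add_assoc, add_comm 1 h])
    obtain ⟨k, hk, hn⟩ := exists_pow_normalizer hP.fg hDP hf hc
    have hi1 : ∀ j : ℤ, (c ^ k) ^ j ∈ D → j = 0 := by
      intro j hj
      rw [← zpow_natCast, ← zpow_mul] at hj
      rcases mul_eq_zero.1 (hi _ (hDP hj)) with h1 | h1
      · omega
      · exact h1
    have hi2 : ∀ j : ℤ, ((c ^ k) ^ 2) ^ j ∈ D → j = 0 := by
      intro j hj
      have h2 : (c ^ k) ^ (2 * j) ∈ D := by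
        rw [zpow_mul]
        exact_mod_cast hj
      have := hi1 _ h2
      omega
    refine ⟨D ⊔ Subgroup.zpowers ((c ^ k) ^ 2), ?_, ?_, amenable_sup hA (pow_mem hn 2) hi2,
      cyc_coset X D (c ^ k) hn hi1 hD⟩
    · refine sup_le (hDP.trans le_sup_left) ?_
      rw [Subgroup.zpowers_le]
      exact Subgroup.mem_sup_right (pow_mem (pow_mem (Subgroup.mem_zpowers c) k) 2)
    · rw [← pow_mul]
      exact relIndex_sup hf hc (by omega)

lemma ringZ_sum {Z : Type} [MulAction G Z] [Fintype Z] (a : MonoidAlgebra ℤ G) :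
    ringZ G Z a (∑ z, Finsupp.single z 1) = augm G a • ∑ z : Z, Finsupp.single z (1 : ℤ) := by
  refine MonoidAlgebra.induction_linear a ?_ ?_ ?_
  · rw [map_zero, map_zero, zero_smul]; rfl
  · intro x y hx hy
    rw [map_add, map_add, add_smul, ← hx, ← hy]
    rfl
  · intro g r
    rw [ringZ_single, augm_single, Finsupp.mapDomain_finsetSum]
    congr 1
    simp only [Finsupp.mapDomain_single]
    exact Equiv.sum_comp (MulAction.toPerm g : Equiv.Perm Z) (fun z => Finsupp.single z (1 : ℤ))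

theorem finite_case (X : FinRes G) {D : Subgroup G} (hD : IsAmenable D) (hf : Finite (G ⧸ D)) :
    ∃ i ≤ 2, Nontrivial (X.homology (toRed G) i) := by
  by_contra hcon
  push Not at hcon
  have hs : ∀ i ≤ 2, Subsingleton (X.homology (toRed G) i) := fun i hi =>
    not_nontrivial_iff_subsingleton.1 (by simpa using hcon i hi)
  have hV : ∀ m : Mult G (G ⧸ D), Van X m := fun m =>
    van_of_homology X hD m (hs 0 (by norm_num)) (hs 1 (by norm_num)) (hs 2 le_rfl)
  have := Fintype.ofFinite (G ⧸ D)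
  have h1 := H0 X hV (fun j => X.aug j • ∑ z : G ⧸ D, Finsupp.single z (1 : ℤ)) (by
    funext k
    change ∑ j, ringZ G (G ⧸ D) (X.d 0 k j) (X.aug j • ∑ z : G ⧸ D, Finsupp.single z (1 : ℤ)) = 0
    have h2 : ∀ j, ringZ G (G ⧸ D) (X.d 0 k j) (X.aug j • ∑ z : G ⧸ D, Finsupp.single z (1 : ℤ)) =
        (augm G (X.d 0 k j) * X.aug j) • ∑ z : G ⧸ D, Finsupp.single z (1 : ℤ) := by
      intro j
      rw [map_zsmul, ringZ_sum, ← mul_smul, mul_comm]
    rw [Finset.sum_congr rfl fun j _ => h2 j, ← Finset.sum_smul]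
    have h3 : ∑ j, augm G (X.d 0 k j) * X.aug j = 0 := by
      have h4 := eps_d X (Pi.single k 1)
      rw [Matrix.single_one_vecMul] at h4
      exact h4
    rw [h3, zero_smul])
  obtain ⟨x, hx⟩ := X.surj
  have h5 : ∀ j, X.aug j = 0 := by
    intro j
    have h6 := DFunLike.congr_fun (congrFun h1 j) ((1 : G) : G ⧸ D)
    change (X.aug j • ∑ z : G ⧸ D, Finsupp.single z (1 : ℤ)) ((1 : G) : G ⧸ D) = 0 at h6
    rw [Finsupp.smul_apply, Finsupp.finsetSum_apply] at h6
    rw [Finset.sum_eq_single ((1 : G) : G ⧸ D) (fun b _ hb => Finsupp.single_eq_of_ne hb.symm)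
      (fun h => absurd (Finset.mem_univ _) h), Finsupp.single_eq_same] at h6
    simpa using h6
  rw [Finset.sum_eq_zero fun j _ => by rw [h5 j, mul_zero]] at hx
  exact zero_ne_one hx

/-- the main theorem -/
theorem main (X : FinRes G) (n : ℕ) (hl : ∀ k < n, Subsingleton (X.cohomology k))
    (he : Nonempty (X.cohomology n ≃+ ℤ)) (P : Subgroup G) (h : ℕ) (hP : PolyZ P h)
    (hn : n ≤ h + 2) : ∃ i ≤ 2, Nontrivial (X.homology (toRed G) i) := by
  obtain ⟨e⟩ := he
  rcases Nat.lt_or_ge 2 n with h2 | h2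
  · obtain ⟨P', hP'⟩ := hP.sub (n - 2) (by omega)
    obtain ⟨D, -, -, hA, hD⟩ := hP'.exists_cyc X 2 (by
      rw [show 2 + (n - 2) = n by omega]
      exact cyc_bot X hl e)
    rcases finite_or_infinite (G ⧸ D) with hf | hf
    · exact finite_case X hA hf
    · refine Pool.Agent.H919R4.AS.main X hA hf ⟨2, le_rfl, ?_⟩
      obtain ⟨-, x, hx0, hx1, -⟩ := hD
      refine ⟨⟨((⟨x, hx0⟩ : (cobdZ X (G ⧸ D) 2).ker) : cohomologyZ X (G ⧸ D) 2), 0, ?_⟩⟩
      intro h3
      rw [QuotientAddGroup.eq_zero_iff] at h3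
      have h4 : x ∈ coboundariesZ X (G ⧸ D) 2 := h3
      exact one_ne_zero (hx1 1 (by rwa [one_smul]))
  · exact Pool.Agent.H919R4.ZS.main X (Or.inr ⟨n, h2, e.toEquiv.nontrivial⟩)

end Pool.Agent.N453.ZS
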