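import Pool.Agent.N453.ZS.Perm

/-!
Right multiplication by an element of the normaliser of `N` on `G/N`, and the quotient `G/N'` for
`N' = N ⊔ ⟨c⟩`.
-/

set_option autoImplicit false

namespace Pool.Agent.N453.ZS

variable {G : Type} [Group G]

lemma conj_mem_of_norm {N : Subgroup G} {c n : G} (hc : c ∈ Subgroup.normalizer N) (hn : n ∈ N) :
    c⁻¹ * n * c ∈ N := by
  have h := (Subgroup.mem_normalizer_iff.1 (inv_mem hc) n).1 hn
  simpa using h

/-- Right multiplication by an element `c` of the normaliser of `N` on `G/N`. -/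
def rmulFun (N : Subgroup G) (c : G) (hc : c ∈ Subgroup.normalizer N) : G ⧸ N → G ⧸ N :=
  Quotient.map' (fun g => g * c) (by
    intro a b hab
    rw [QuotientGroup.leftRel_apply] at hab ⊢
    have h := conj_mem_of_norm hc hab
    have e : (a * c)⁻¹ * (b * c) = c⁻¹ * (a⁻¹ * b) * c := by group
    rw [e]
    exact h)

@[simp] lemma rmulFun_mk (N : Subgroup G) (c : G) (hc : c ∈ Subgroup.normalizer N) (g : G) :
    rmulFun N c hc (g : G ⧸ N) = ((g * c : G) : G ⧸ N) := rfl

/-- Right multiplication as a permutation of `G/N`. -/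
def rmul (N : Subgroup G) (c : G) (hc : c ∈ Subgroup.normalizer N) : Equiv.Perm (G ⧸ N) where
  toFun := rmulFun N c hc
  invFun := rmulFun N c⁻¹ (inv_mem hc)
  left_inv x := by
    induction x using QuotientGroup.induction_on with
    | H g => simp
  right_inv x := by
    induction x using QuotientGroup.induction_on with
    | H g => simp

@[simp] lemma rmul_mk (N : Subgroup G) (c : G) (hc : c ∈ Subgroup.normalizer N) (g : G) :
    rmul N c hc (g : G ⧸ N) = ((g * c : G) : G ⧸ N) := rfl

@[simp] lemma rmul_symm_mk (N : Subgroup G) (c : G) (hc : c ∈ Subgroup.normalizer N) (g : G) :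
    (rmul N c hc).symm (g : G ⧸ N) = ((g * c⁻¹ : G) : G ⧸ N) := rfl

lemma rmul_smul (N : Subgroup G) (c : G) (hc : c ∈ Subgroup.normalizer N) (g : G) (s : G ⧸ N) :
    rmul N c hc (g • s) = g • rmul N c hc s := by
  induction s using QuotientGroup.induction_on with
  | H x =>
    change ((g * x * c : G) : G ⧸ N) = ((g * (x * c) : G) : G ⧸ N)
    rw [mul_assoc]

lemma rmul_zpow_mk (N : Subgroup G) (c : G) (hc : c ∈ Subgroup.normalizer N) (m : ℤ) :
    ∀ g : G, (rmul N c hc ^ m) (g : G ⧸ N) = ((g * c ^ m : G) : G ⧸ N) := by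
  induction m using Int.induction_on with
  | zero => intro g; simp
  | succ i ih =>
    intro g
    rw [zpow_add, zpow_one, Equiv.Perm.mul_apply, rmul_mk, ih, mul_assoc, ← zpow_one_add, add_comm]
  | pred i ih =>
    intro g
    rw [zpow_sub, zpow_one, Equiv.Perm.mul_apply]
    change (rmul N c hc ^ (-(i : ℤ))) ((rmul N c hc).symm (g : G ⧸ N)) = _
    rw [rmul_symm_mk, ih, mul_assoc, ← zpow_neg_one, ← zpow_add]
    congr 3
    ring

lemma mem_sup_zpowers {N : Subgroup G} {c : G} (hc : c ∈ Subgroup.normalizer N) {g : G} :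
    g ∈ N ⊔ Subgroup.zpowers c ↔ ∃ m : ℤ, c ^ m * g ∈ N := by
  constructor
  · intro hg
    rw [Subgroup.sup_eq_closure] at hg
    induction hg using Subgroup.closure_induction with
    | one => exact ⟨0, by simp⟩
    | mem x hx =>
      rcases hx with hx | hx
      · exact ⟨0, by simpa using hx⟩
      · obtain ⟨m, rfl⟩ := hx
        exact ⟨-m, by simp⟩
    | mul x y hx hy ihx ihy =>
      obtain ⟨a, ha⟩ := ihx
      obtain ⟨b, hb⟩ := ihy
      refine ⟨b + a, ?_⟩
      have hcb : c ^ b ∈ Subgroup.normalizer N := zpow_mem hc b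
      have h1 := (Subgroup.mem_normalizer_iff.1 hcb _).1 ha
      have h2 := N.mul_mem h1 hb
      have e : c ^ b * (c ^ a * x) * (c ^ b)⁻¹ * (c ^ b * y) = c ^ (b + a) * (x * y) := by
        rw [zpow_add]; group
      rw [e] at h2
      exact h2
    | inv x hx ihx =>
      obtain ⟨a, ha⟩ := ihx
      refine ⟨-a, ?_⟩
      have hcb : c ^ (-a) ∈ Subgroup.normalizer N := zpow_mem hc (-a)
      have h1 := (Subgroup.mem_normalizer_iff.1 hcb _).1 (N.inv_mem ha)
      have e : c ^ (-a) * (c ^ a * x)⁻¹ * (c ^ (-a))⁻¹ = c ^ (-a) * x⁻¹ := by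
        rw [mul_inv_rev, zpow_neg]; group
      rw [e] at h1
      exact h1
  · rintro ⟨m, hm⟩
    have h1 : g = c ^ (-m) * (c ^ m * g) := by group
    rw [h1]
    exact mul_mem (Subgroup.mem_sup_right (zpow_mem (Subgroup.mem_zpowers c) _))
      (Subgroup.mem_sup_left hm)

/-- The projection `G/N → G/N'` for `N ≤ N'`. -/
def qproj {N N' : Subgroup G} (h : N ≤ N') : G ⧸ N → G ⧸ N' :=
  Quotient.map' id (by
    intro a b hab
    rw [QuotientGroup.leftRel_apply] at hab ⊢
    exact h hab)

@[simp] lemma qproj_mk {N N' : Subgroup G} (h : N ≤ N') (g : G) :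
    qproj h (g : G ⧸ N) = (g : G ⧸ N') := rfl

lemma isQuo (N : Subgroup G) (c : G) (hc : c ∈ Subgroup.normalizer N)
    (hi : ∀ m : ℤ, c ^ m ∈ N → m = 0) :
    IsQuo G (qproj (le_sup_left : N ≤ N ⊔ Subgroup.zpowers c)) (rmul N c hc) where
  p_smul g s := by
    induction s using QuotientGroup.induction_on with
    | H x => rfl
  R_smul := rmul_smul N c hc
  p_R s := by
    induction s using QuotientGroup.induction_on with
    | H x =>
      rw [rmul_mk, qproj_mk, qproj_mk, QuotientGroup.eq]
      have e : (x * c)⁻¹ * x = c⁻¹ := by group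
      rw [e]
      exact Subgroup.mem_sup_right (inv_mem (Subgroup.mem_zpowers c))
  surj s := by
    induction s using QuotientGroup.induction_on with
    | H x => exact ⟨(x : G ⧸ N), rfl⟩
  fib s s' h := by
    induction s using QuotientGroup.induction_on with
    | H x =>
      induction s' using QuotientGroup.induction_on with
      | H y =>
        rw [qproj_mk, qproj_mk, QuotientGroup.eq, mem_sup_zpowers hc] at h
        obtain ⟨m, hm⟩ := h
        refine ⟨-m, ?_⟩
        rw [rmul_zpow_mk, QuotientGroup.eq]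
        have e : (x * c ^ (-m))⁻¹ * y = c ^ m * (x⁻¹ * y) := by
          rw [mul_inv_rev, zpow_neg, inv_inv, mul_assoc]
        rw [e]
        exact hm
  free s m h := by
    induction s using QuotientGroup.induction_on with
    | H x =>
      rw [rmul_zpow_mk, QuotientGroup.eq] at h
      have e : (x * c ^ m)⁻¹ * x = c ^ (-m) := by
        rw [mul_inv_rev, zpow_neg]; group
      rw [e] at h
      have := hi _ h
      omega

end Pool.Agent.N453.ZS
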